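import Pool.Agent.W680.WH.Stm

/-!
Project WHH (helper680), BLM: Moebius transforms of block operators.
-/

set_option autoImplicit false

open scoped ComplexConjugate InnerProductSpace
open ContinuousLinearMap Filter

namespace Pool.Agent.W591.WHH

open Pool.Agent.W680.WH

/-- The operator `1 - a T` for a block operator. -/
theorem one_sub_blk (h1 : S_BLA) (a : ℂ) (A B : E →L[ℂ] E) :
    (1 : E2 →L[ℂ] E2) - a • blk A B A = blk (1 - a • A) (-(a • B)) (1 - a • A) := by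
  obtain ⟨-, hone, hadd, hsmul, -⟩ := h1
  have e : (1 : E2 →L[ℂ] E2) - a • blk A B A = blk 1 0 1 + (-a) • blk A B A := by
    rw [hone]
    refine (sub_eq_add_neg _ _).trans (congrArg _ ?_)
    exact (neg_smul a (blk A B A)).symm
  rw [e, hsmul, hadd, zero_add, neg_smul, neg_smul, ← sub_eq_add_neg]

/-- The operator `T - a` for a block operator. -/
theorem blk_sub (h1 : S_BLA) (a : ℂ) (A B : E →L[ℂ] E) :
    blk A B A - a • (1 : E2 →L[ℂ] E2) = blk (A - a • 1) B (A - a • 1) := by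
  obtain ⟨-, hone, hadd, hsmul, -⟩ := h1
  have e : blk A B A - a • (1 : E2 →L[ℂ] E2) = blk A B A + (-a) • blk 1 0 1 := by
    rw [hone]
    refine (sub_eq_add_neg _ _).trans (congrArg _ ?_)
    exact (neg_smul a (1 : E2 →L[ℂ] E2)).symm
  rw [e, hsmul, hadd, smul_zero, add_zero, neg_smul, ← sub_eq_add_neg]

theorem inv_right {R : Type*} [Ring R] {u : R} (h : IsUnit u) : u * Ring.inverse u = 1 :=
  Ring.mul_inverse_cancel u h

theorem inv_left {R : Type*} [Ring R] {u : R} (h : IsUnit u) : Ring.inverse u * u = 1 :=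
  Ring.inverse_mul_cancel u h

theorem prod1 (h1 : S_BLA) (a : ℂ) (A B : E →L[ℂ] E) (h : IsUnit (1 - a • A)) :
    ((1 : E2 →L[ℂ] E2) - a • blk A B A) *
      blk (Ring.inverse (1 - a • A)) (a • (Ring.inverse (1 - a • A) * B *
        Ring.inverse (1 - a • A))) (Ring.inverse (1 - a • A)) = 1 := by
  rw [one_sub_blk h1, h1.1, ← h1.2.1, inv_right h]
  congr 1
  rw [mul_smul_comm, ← mul_assoc, ← mul_assoc, inv_right h, one_mul, neg_mul, smul_mul_assoc,
    add_neg_cancel]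

theorem prod2 (h1 : S_BLA) (a : ℂ) (A B : E →L[ℂ] E) (h : IsUnit (1 - a • A)) :
    blk (Ring.inverse (1 - a • A)) (a • (Ring.inverse (1 - a • A) * B *
        Ring.inverse (1 - a • A))) (Ring.inverse (1 - a • A)) *
      ((1 : E2 →L[ℂ] E2) - a • blk A B A) = 1 := by
  rw [one_sub_blk h1, h1.1, ← h1.2.1, inv_left h]
  congr 1
  rw [smul_mul_assoc, mul_assoc, inv_left h, mul_one, mul_neg, mul_smul_comm, neg_add_cancel]

/-- The inverse. -/
theorem inv_blk (h1 : S_BLA) (a : ℂ) (A B : E →L[ℂ] E) (h : IsUnit (1 - a • A)) :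
    Ring.inverse ((1 : E2 →L[ℂ] E2) - a • blk A B A) =
      blk (Ring.inverse (1 - a • A)) (a • (Ring.inverse (1 - a • A) * B *
        Ring.inverse (1 - a • A))) (Ring.inverse (1 - a • A)) := by
  have hu : IsUnit ((1 : E2 →L[ℂ] E2) - a • blk A B A) :=
    ⟨⟨_, _, prod1 h1 a A B h, prod2 h1 a A B h⟩, rfl⟩
  calc _ = Ring.inverse ((1 : E2 →L[ℂ] E2) - a • blk A B A) *
        (((1 : E2 →L[ℂ] E2) - a • blk A B A) *
      blk (Ring.inverse (1 - a • A)) (a • (Ring.inverse (1 - a • A) * B *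
        Ring.inverse (1 - a • A))) (Ring.inverse (1 - a • A))) := by
        rw [prod1 h1 a A B h, mul_one]
    _ = _ := by rw [← mul_assoc, inv_left hu, one_mul]

theorem unit_blk (h1 : S_BLA) (a : ℂ) (A B : E →L[ℂ] E) (h : IsUnit (1 - a • A)) :
    IsUnit ((1 : E2 →L[ℂ] E2) - a • blk A B A) :=
  ⟨⟨_, _, prod1 h1 a A B h, prod2 h1 a A B h⟩, rfl⟩

/-- The off-diagonal entry. -/
theorem off (a b : ℂ) (A B G : E →L[ℂ] E) (h : (1 - b • A) * G = 1) :
    (A - a • 1) * (b • (G * B * G)) + B * G = (1 - b * a) • (G * B * G) := by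
  have e : B * G = (1 - b • A) * (G * B * G) := by
    rw [← mul_assoc, ← mul_assoc, h, one_mul]
  rw [e]
  generalize G * B * G = W
  rw [sub_mul, sub_mul, smul_mul_assoc, one_mul, mul_smul_comm, smul_mul_assoc, one_mul,
    sub_smul, one_smul, smul_smul, mul_comm a b]
  abel

theorem blm (h1 : S_BLA) (h2 : S_INV) : S_BLM := by
  refine ⟨fun a A B h => unit_blk h1 a A B h, fun a ha => unit_blk h1 a Z X (h2 a ha).1, ?_, ?_⟩
  · intro l hl
    rw [Metric.mem_closedBall, dist_zero_right]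
    by_contra hcon
    rw [not_le] at hcon
    have hl0 : l ≠ 0 := by
      rintro rfl
      rw [norm_zero] at hcon
      linarith
    have hlt : ‖l⁻¹‖ < 1 := by
      rw [norm_inv]
      exact inv_lt_one_of_one_lt₀ hcon
    have hu : IsUnit (1 - l⁻¹ • T) := unit_blk h1 l⁻¹ Z X (h2 l⁻¹ hlt).1
    refine hl ?_
    have e : algebraMap ℂ (E2 →L[ℂ] E2) l - T = (Units.mk0 l hl0) • (1 - l⁻¹ • T) := by
      rw [Units.smul_def, Units.val_mk0, smul_sub, smul_smul, mul_inv_cancel₀ hl0, one_smul,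
        Algebra.algebraMap_eq_smul_one]
    change IsUnit (algebraMap ℂ (E2 →L[ℂ] E2) l - T)
    rw [e]
    exact hu.smul _
  · intro φ B
    have hcj : ‖conj φ.a‖ < 1 := by rw [RCLike.norm_conj]; exact φ.ha
    have hu : IsUnit (1 - (conj φ.a) • Z) := (h2 _ hcj).1
    have e1 : φ.op (blk Z B Z) = φ.c • ((blk Z B Z - φ.a • (1 : E2 →L[ℂ] E2)) *
      Ring.inverse ((1 : E2 →L[ℂ] E2) - (conj φ.a) • blk Z B Z)) := rfl
    have e2 : φ.op Z = φ.c • ((Z - φ.a • (1 : E →L[ℂ] E)) *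
      Ring.inverse ((1 : E →L[ℂ] E) - (conj φ.a) • Z)) := rfl
    rw [e1, e2, blk_sub h1, inv_blk h1 _ _ _ hu, h1.1, h1.2.2.2.1,
      off _ _ _ _ _ (inv_right hu), smul_smul]

end Pool.Agent.W591.WHH
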